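import Pool.Agent.Q43.CG.Words

/-! The counting inequality. -/

open FreeGroup

namespace Q43.CG

variable {m : ℕ}

theorem finite_length (n : ℕ) : {w : FreeGroup (Fin m) | w.toWord.length = n}.Finite := by
  have h : {L : List (Fin m × Bool) | L.length = n}.Finite := List.finite_length_eq _ n
  exact (h.preimage (FreeGroup.toWord_injective.injOn)).subset (fun w hw => hw)

/-- The elements of length `n` of `H` whose vector is in `C`. -/
def ball (H : Subgroup (FreeGroup (Fin m))) (n : ℕ) (C : Set (Fin m → ℝ)) :
    Set (FreeGroup (Fin m)) :=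
  {w | w ∈ H ∧ w.toWord.length = n ∧ wp w ∈ C}

theorem ball_finite (H : Subgroup (FreeGroup (Fin m))) (n : ℕ) (C : Set (Fin m → ℝ)) :
    (ball H n C).Finite := (finite_length n).subset (fun _ hw => hw.2.1)

theorem pigeonhole {α κ : Type*} [Fintype κ] [Nonempty κ] [DecidableEq κ] (S : Finset α)
    (key : α → κ) : ∃ k, S.card ≤ Fintype.card κ * (S.filter (fun x => key x = k)).card := by
  obtain ⟨k, _, hk⟩ := Finset.exists_max_image (Finset.univ : Finset κ)
    (fun k => (S.filter (fun x => key x = k)).card) Finset.univ_nonempty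
  refine ⟨k, ?_⟩
  rw [Finset.card_eq_sum_card_fiberwise (f := key) (t := Finset.univ) (fun _ _ => Finset.mem_univ _)]
  calc ∑ b, (S.filter (fun x => key x = b)).card
      ≤ ∑ _b : κ, (S.filter (fun x => key x = k)).card :=
        Finset.sum_le_sum (fun b hb => hk b hb)
    _ = Fintype.card κ * (S.filter (fun x => key x = k)).card := by
        rw [Finset.sum_const, Finset.card_univ, smul_eq_mul]

/-- The number of keys. -/
def keys (m n : ℕ) : ℕ := (2 * m + 1) * ((2 * m + 1) * (n + 1) ^ (2 * m))

theorem count_ineq (hm : 2 ≤ m) {n : ℕ} (hn : 1 ≤ n) (C' C : Set (Fin m → ℝ))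
    (hC : ∀ v ∈ C', (∀ w : FreeGroup (Fin m), w.toWord.length = n → wp w = v →
      ∀ i, (2 : ℝ) • v + (2 : ℝ) • (Pi.single i 1 : Fin m → ℝ) ∈ C)) :
    (ball (⊤ : Subgroup (FreeGroup (Fin m))) n C').ncard ^ 2 ≤
      keys m n ^ 2 * (ball (commutator (FreeGroup (Fin m))) (2 * n + 2) C).ncard := by
  classical
  set S : Finset (FreeGroup (Fin m)) :=
    (ball_finite (⊤ : Subgroup (FreeGroup (Fin m))) n C').toFinset with hS
  have hSmem : ∀ w, w ∈ S ↔ w.toWord.length = n ∧ wp w ∈ C' := by
    intro w
    rw [hS, Set.Finite.mem_toFinset]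
    exact ⟨fun h => h.2, fun h => ⟨trivial, h⟩⟩
  let key : FreeGroup (Fin m) → Option (Fin m × Bool) × Option (Fin m × Bool) ×
      ((Fin m × Bool) → Fin (n + 1)) := fun w =>
    (w.toWord.head?, w.toWord.getLast?, fun x => ⟨min (w.toWord.count x) n, by omega⟩)
  obtain ⟨k, hk⟩ := pigeonhole S key
  set A := S.filter (fun x => key x = k) with hA
  have hcardκ : Fintype.card (Option (Fin m × Bool) × Option (Fin m × Bool) ×
      ((Fin m × Bool) → Fin (n + 1))) = keys m n := by
    simp only [Fintype.card_prod, Fintype.card_option, Fintype.card_fin, Fintype.card_bool,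
      Fintype.card_pi, Finset.prod_const, Finset.card_univ, keys]
    ring
  rw [hcardκ] at hk
  rw [Set.ncard_eq_toFinset_card _ (ball_finite (⊤ : Subgroup (FreeGroup (Fin m))) n C'), ← hS,
    Set.ncard_eq_toFinset_card _ (ball_finite _ _ _)]
  set T := (ball_finite (commutator (FreeGroup (Fin m))) (2 * n + 2) C).toFinset with hT
  have hAT : A.card ^ 2 ≤ T.card := by
    rcases A.eq_empty_or_nonempty with h0 | ⟨w₀, hw₀⟩
    · rw [h0]; simp
    have hA1 : ∀ w ∈ A, w.toWord.length = n ∧ wp w ∈ C' ∧ w.toWord.head? = w₀.toWord.head? ∧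
        w.toWord.getLast? = w₀.toWord.getLast? ∧ w.toWord.Perm w₀.toWord := by
      have hgen : ∀ w ∈ A, w.toWord.length = n ∧ wp w ∈ C' ∧ key w = k := by
        intro w hw
        rw [hA, Finset.mem_filter, hSmem] at hw
        exact ⟨hw.1.1, hw.1.2, hw.2⟩
      intro w hw
      obtain ⟨h1, h2, h3⟩ := hgen w hw
      obtain ⟨g1, g2, g3⟩ := hgen w₀ hw₀
      rw [← g3] at h3
      have e1 : w.toWord.head? = w₀.toWord.head? := congrArg Prod.fst h3
      have e2 : w.toWord.getLast? = w₀.toWord.getLast? := congrArg (fun p => p.2.1) h3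
      have e3 := congrArg (fun p => p.2.2) h3
      refine ⟨h1, h2, e1, e2, List.perm_iff_count.2 (fun x => ?_)⟩
      have e4 := congrArg Fin.val (congrFun e3 x)
      simp only [key] at e4
      have b1 : w.toWord.count x ≤ n := h1 ▸ List.count_le_length
      have b2 : w₀.toWord.count x ≤ n := g1 ▸ List.count_le_length
      rwa [min_eq_left b1, min_eq_left b2] at e4
    have hlen₀ : w₀.toWord.length = n := (hA1 w₀ hw₀).1
    obtain ⟨f, hf⟩ : ∃ f, w₀.toWord.head? = some f := by
      cases hh : w₀.toWord with
      | nil => rw [hh] at hlen₀; simp at hlen₀; omega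
      | cons a t => exact ⟨a, rfl⟩
    obtain ⟨l, hl⟩ : ∃ l, w₀.toWord.getLast? = some l := by
      have hne : w₀.toWord ≠ [] := by
        intro h; rw [h] at hlen₀; simp at hlen₀; omega
      exact ⟨_, List.getLast?_eq_some_getLast hne⟩
    obtain ⟨c, hc1, hc2⟩ := exists_letter hm (l.1, !l.2) f
    have hred : ∀ w ∈ A, ∀ w' ∈ A, FreeGroup.IsReduced (comb c w.toWord w'.toWord) := by
      intro w hw w' hw'
      obtain ⟨_, _, _, h4, _⟩ := hA1 w hw
      obtain ⟨g1, _, g3, g4, _⟩ := hA1 w' hw'
      refine isReduced_comb FreeGroup.isReduced_toWord FreeGroup.isReduced_toWord ?_ ?_ ?_ ?_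
      · intro l' hl'
        rw [h4, hl] at hl'
        simp only [Option.mem_def, Option.some.injEq] at hl'
        rw [← hl']; exact hc1
      · intro f' hf'
        rw [g3, hf] at hf'
        simp only [Option.mem_def, Option.some.injEq] at hf'
        rw [← hf']; exact hc2
      · intro l' hl'
        rw [g4, hl] at hl'
        simp only [Option.mem_def, Option.some.injEq] at hl'
        rw [← hl']; exact hc1
      · intro h
        rw [h] at g1
        simp at g1
        omega
    have hmap : ∀ p ∈ A ×ˢ A, (FreeGroup.mk (comb c p.1.toWord p.2.toWord) : FreeGroup (Fin m)) ∈ T := by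
      rintro ⟨w, w'⟩ hp
      obtain ⟨hw, hw'⟩ := Finset.mem_product.1 hp
      simp only at hw hw' ⊢
      obtain ⟨h1, h2, _, _, h5⟩ := hA1 w hw
      obtain ⟨g1, _, _, _, g5⟩ := hA1 w' hw'
      have hperm : w.toWord.Perm w'.toWord := h5.trans g5.symm
      rw [hT, Set.Finite.mem_toFinset]
      have htw : (FreeGroup.mk (comb c w.toWord w'.toWord) : FreeGroup (Fin m)).toWord =
          comb c w.toWord w'.toWord := by
        rw [FreeGroup.toWord_mk, (hred w hw w' hw').reduce_eq]
      refine ⟨mk_comb_mem hperm, ?_, ?_⟩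
      · rw [htw]
        unfold comb
        simp only [List.length_append, List.length_cons, flip_length, List.length_nil, h1, g1]
        omega
      · have hwp : wp (FreeGroup.mk (comb c w.toWord w'.toWord) : FreeGroup (Fin m)) =
            (2 : ℝ) • wp w + (2 : ℝ) • (Pi.single c.1 1 : Fin m → ℝ) := by
          funext i
          have hflip : (flip w'.toWord).countP (fun x => x.1 = i) =
              w'.toWord.countP (fun x => x.1 = i) := by
            unfold flip
            rw [List.countP_map]
            rfl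
          have hcount : w'.toWord.countP (fun x => x.1 = i) =
              w.toWord.countP (fun x => x.1 = i) := (hperm.countP_eq _).symm
          unfold wp
          rw [htw]
          unfold comb
          rw [List.countP_append, List.countP_cons, List.countP_append, hflip, hcount,
            List.countP_singleton]
          simp only [Pi.add_apply, Pi.smul_apply, smul_eq_mul, Pi.single_apply]
          by_cases hci : i = c.1
          · subst hci
            simp
            ring
          · have hci' : ¬ c.1 = i := fun h => hci h.symm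
            simp [hci, hci']
            ring
        rw [hwp]
        exact hC (wp w) h2 w h1 rfl c.1
    have hinj : Set.InjOn (fun p : FreeGroup (Fin m) × FreeGroup (Fin m) =>
        (FreeGroup.mk (comb c p.1.toWord p.2.toWord) : FreeGroup (Fin m))) ↑(A ×ˢ A) := by
      rintro ⟨w, w'⟩ hp ⟨v, v'⟩ hq h
      obtain ⟨hw, hw'⟩ := Finset.mem_product.1 (Finset.mem_coe.1 hp)
      obtain ⟨hv, hv'⟩ := Finset.mem_product.1 (Finset.mem_coe.1 hq)
      simp only at hw hw' hv hv' h
      have h2 : comb c w.toWord w'.toWord = comb c v.toWord v'.toWord := by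
        have := congrArg FreeGroup.toWord h
        rwa [FreeGroup.toWord_mk, FreeGroup.toWord_mk, (hred w hw w' hw').reduce_eq,
          (hred v hv v' hv').reduce_eq] at this
      obtain ⟨e1, e2⟩ := comb_inj c (by rw [(hA1 w hw).1, (hA1 v hv).1]) h2
      exact Prod.ext (FreeGroup.toWord_injective e1) (FreeGroup.toWord_injective e2)
    have := Finset.card_le_card_of_injOn _ hmap hinj
    rwa [Finset.card_product, ← sq] at this
  calc S.card ^ 2 ≤ (keys m n * A.card) ^ 2 := Nat.pow_le_pow_left hk 2
    _ = keys m n ^ 2 * A.card ^ 2 := by ring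
    _ ≤ keys m n ^ 2 * T.card := Nat.mul_le_mul_left _ hAT

end Q43.CG
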