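import Mathlib

/-! Multivariate growth and cogrowth of subgroups of free groups. -/

open FreeGroup

namespace Q43.CG

variable {m : ℕ}

/-- The vector `℘(w)`: its `i`-th entry is the number of letters of the reduced word of `w`
which are equal to `a_i` or to its inverse. -/
def wp (w : FreeGroup (Fin m)) : Fin m → ℝ :=
  fun i => (w.toWord.countP (fun x => x.1 = i) : ℝ)

/-- The mass which the counting measure `ν_H` gives to the set `E`: the number of the elements
`w` of `H` with `℘(w)` in `E`. -/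
noncomputable def nu (H : Subgroup (FreeGroup (Fin m))) (E : Set (Fin m → ℝ)) : ℕ∞ :=
  Set.encard {w : FreeGroup (Fin m) | w ∈ H ∧ wp w ∈ E}

/-- The set of the vectors `x` with `R ≤ ‖x‖ < R + 1`, in the `ℓ¹` norm. -/
def shell (m : ℕ) (R : ℝ) : Set (Fin m → ℝ) :=
  {x | R ≤ ∑ i, |x i| ∧ ∑ i, |x i| < R + 1}

/-- The exponential growth rate `τ_{H,C}` of `H` in the cone `C` (with `log 0 = -∞`). -/
noncomputable def tau (H : Subgroup (FreeGroup (Fin m))) (C : Set (Fin m → ℝ)) : EReal :=
  Filter.limsup (fun R : ℝ => ENNReal.log ((nu H (shell m R ∩ C) : ℕ∞) : ENNReal) / (R : EReal))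
    Filter.atTop

/-- Open cones in `ℝ ^ m`. -/
structure IsOpenCone (C : Set (Fin m → ℝ)) : Prop where
  isOpen : IsOpen C
  smul_mem : ∀ t : ℝ, 0 < t → ∀ x ∈ C, t • x ∈ C

/-- The multivariate cogrowth `ψ_H(r)` in direction `r` (the multivariate growth if `H` is the
whole group). -/
noncomputable def psi (H : Subgroup (FreeGroup (Fin m))) (r : Fin m → ℝ) : EReal :=
  ⨅ C : {C : Set (Fin m → ℝ) // IsOpenCone C ∧ r ∈ C}, tau H C.1

end Q43.CG
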