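import Pool.Agent.Q43.CG.Count

/-! The multivariate cogrowth of the commutator subgroup. -/

open FreeGroup Filter Topology

namespace Q43.CG

variable {m : ℕ}

theorem sum_wp (w : FreeGroup (Fin m)) : ∑ i, |wp w i| = w.toWord.length := by
  have h : ∀ L : List (Fin m × Bool), ∑ i, ((L.countP (fun x => x.1 = i) : ℕ) : ℝ) = L.length := by
    intro L
    induction L with
    | nil => simp
    | cons a L ih =>
      have h1 : ∀ i : Fin m, (((a :: L).countP (fun x => x.1 = i) : ℕ) : ℝ) =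
          ((L.countP (fun x => x.1 = i) : ℕ) : ℝ) + (if a.1 = i then 1 else 0) := by
        intro i
        rw [List.countP_cons]
        by_cases h : a.1 = i <;> simp [h]
      simp_rw [h1]
      rw [Finset.sum_add_distrib, ih, Finset.sum_ite_eq]
      simp
  rw [← h w.toWord]
  refine Finset.sum_congr rfl fun i _ => ?_
  unfold wp
  exact abs_of_nonneg (Nat.cast_nonneg _)

theorem nu_shell (H : Subgroup (FreeGroup (Fin m))) (C : Set (Fin m → ℝ)) {R : ℝ} (hR : 0 < R) :
    nu H (shell m R ∩ C) = (ball H ⌈R⌉₊ C).ncard := by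
  have h : {w : FreeGroup (Fin m) | w ∈ H ∧ wp w ∈ shell m R ∩ C} = ball H ⌈R⌉₊ C := by
    ext w
    unfold ball shell
    simp only [Set.mem_inter_iff, Set.mem_ofPred_eq]
    rw [sum_wp]
    constructor
    · rintro ⟨h1, ⟨h2, h3⟩, h4⟩
      refine ⟨h1, ?_, h4⟩
      symm
      rw [Nat.ceil_eq_iff (by
        intro h0
        rw [h0] at h2
        simp at h2
        linarith)]
      exact ⟨by
        have : (1 : ℕ) ≤ w.toWord.length := by
          by_contra hcon
          have h0 : w.toWord.length = 0 := by omega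
          rw [h0] at h2
          simp at h2
          linarith
        rw [Nat.cast_sub this]
        push_cast
        linarith, h2⟩
    · rintro ⟨h1, h2, h4⟩
      refine ⟨h1, ⟨?_, ?_⟩, h4⟩
      · rw [h2]; exact Nat.le_ceil R
      · rw [h2]; exact Nat.ceil_lt_add_one hR.le
  unfold nu
  rw [h, (ball_finite H ⌈R⌉₊ C).cast_ncard_eq]

theorem tau_eq (H : Subgroup (FreeGroup (Fin m))) (C : Set (Fin m → ℝ)) :
    tau H C = limsup (fun R : ℝ => ENNReal.log (((ball H ⌈R⌉₊ C).ncard : ℕ) : ENNReal) / (R : EReal))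
      atTop := by
  unfold tau
  refine limsup_congr ?_
  filter_upwards [eventually_gt_atTop 0] with R hR
  rw [nu_shell H C hR]
  simp

theorem tendsto_bound (m : ℕ) (z : ℝ) :
    Tendsto (fun R : ℝ => (Real.log (keys m ⌈R⌉₊) + z * ((⌈R⌉₊ : ℝ) + 1)) / R) atTop (𝓝 z) := by
  have h1 : Tendsto (fun R : ℝ => ((⌈R⌉₊ : ℝ)) / R) atTop (𝓝 1) := tendsto_nat_ceil_div_atTop
  have h2 : Tendsto (fun R : ℝ => (1 : ℝ) / R) atTop (𝓝 0) := tendsto_const_nhds.div_atTop tendsto_id
  have h3 : Tendsto (fun R : ℝ => ((⌈R⌉₊ : ℝ) + 1) / R) atTop (𝓝 1) := by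
    have := h1.add h2
    simp only [add_zero] at this
    refine this.congr fun R => ?_
    rw [add_div]
  have h4 : Tendsto (fun x : ℝ => Real.log x / x) atTop (𝓝 0) := by
    have := Real.isLittleO_log_id_atTop.tendsto_div_nhds_zero
    simpa using this
  have h5 : Tendsto (fun R : ℝ => ((⌈R⌉₊ : ℝ) + 1)) atTop atTop :=
    tendsto_atTop_add_const_right _ _ (tendsto_natCast_atTop_atTop.comp tendsto_nat_ceil_atTop)
  have h6 : Tendsto (fun R : ℝ => Real.log ((⌈R⌉₊ : ℝ) + 1) / R) atTop (𝓝 0) := by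
    have h7 := (h4.comp h5).mul h3
    simp only [zero_mul] at h7
    refine h7.congr fun R => ?_
    have : ((⌈R⌉₊ : ℝ) + 1) ≠ 0 := by positivity
    simp only [Function.comp]
    field_simp
  have h8 : Tendsto (fun R : ℝ => (2 * Real.log (2 * m + 1)) / R) atTop (𝓝 0) :=
    tendsto_const_nhds.div_atTop tendsto_id
  have h9 := (h8.add (h6.const_mul (2 * (m : ℝ)))).add (h3.const_mul z)
  simp only [mul_zero, zero_add, mul_one] at h9
  refine h9.congr fun R => ?_
  have hk : Real.log (keys m ⌈R⌉₊) = 2 * Real.log (2 * m + 1) +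
      2 * (m : ℝ) * Real.log ((⌈R⌉₊ : ℝ) + 1) := by
    unfold keys
    push_cast
    rw [Real.log_mul (by positivity) (by positivity), Real.log_mul (by positivity) (by positivity),
      Real.log_pow]
    push_cast
    ring
  rw [hk]
  ring

theorem log_natCast {k : ℕ} (hk : 1 ≤ k) : ENNReal.log ((k : ℕ) : ENNReal) = (Real.log k : ℝ) := by
  have : ((k : ℕ) : ENNReal) = ENNReal.ofReal (k : ℝ) := (ENNReal.ofReal_natCast k).symm
  rw [this, ENNReal.log_ofReal_of_pos (by exact_mod_cast hk)]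

theorem tau_le (hm : 2 ≤ m) (C' C : Set (Fin m → ℝ)) (n₀ : ℕ)
    (hC : ∀ w : FreeGroup (Fin m), n₀ ≤ w.toWord.length → wp w ∈ C' →
      ∀ i, (2 : ℝ) • wp w + (2 : ℝ) • (Pi.single i 1 : Fin m → ℝ) ∈ C) :
    tau (⊤ : Subgroup (FreeGroup (Fin m))) C' ≤ tau (commutator (FreeGroup (Fin m))) C := by
  rw [tau_eq, tau_eq]
  by_contra hcon
  push Not at hcon
  obtain ⟨z, hz1, hz2⟩ := EReal.lt_iff_exists_real_btwn.1 hcon
  obtain ⟨y, hy1, hy2⟩ := EReal.lt_iff_exists_real_btwn.1 hz2
  have hb := eventually_lt_of_limsup_lt hz1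
  have hg : Tendsto (fun R : ℝ => (2 * (⌈R⌉₊ : ℝ) + 2)) atTop atTop := by
    refine tendsto_atTop_add_const_right _ _ ?_
    exact (tendsto_natCast_atTop_atTop.comp tendsto_nat_ceil_atTop).const_mul_atTop two_pos
  have hb' := hg.eventually hb
  have hf := (tendsto_bound m z).eventually_lt_const (EReal.coe_lt_coe_iff.1 hy1)
  refine absurd ?_ (not_le.2 hy2)
  refine limsup_le_of_le (h := ?_)
  filter_upwards [hb', hf, eventually_gt_atTop 0, eventually_ge_atTop (n₀ : ℝ)] with R h1 h2 h3 h4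
  set n := ⌈R⌉₊ with hn
  have hn1 : 1 ≤ n := Nat.ceil_pos.2 h3
  have hn0 : n₀ ≤ n := by exact_mod_cast h4.trans (Nat.le_ceil R)
  have hceil : ⌈(2 * (n : ℝ) + 2)⌉₊ = 2 * n + 2 := by
    have : (2 * (n : ℝ) + 2) = ((2 * n + 2 : ℕ) : ℝ) := by push_cast; ring
    rw [this, Nat.ceil_natCast]
  rw [hceil] at h1
  have hcount := count_ineq hm hn1 C' C (by
    intro v hv w hw hwv i
    subst hwv
    exact hC w (by omega) hv i)
  set a := (ball (⊤ : Subgroup (FreeGroup (Fin m))) n C').ncard with ha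
  set b := (ball (commutator (FreeGroup (Fin m))) (2 * n + 2) C).ncard with hbdef
  rcases Nat.eq_zero_or_pos a with h0 | hapos
  · rw [h0, Nat.cast_zero, ENNReal.log_zero,
      EReal.bot_div_of_pos_ne_top (by exact_mod_cast h3) (EReal.coe_ne_top R)]
    exact bot_le
  · have hbpos : 1 ≤ b := by
      by_contra hb0
      have : b = 0 := by omega
      rw [this, mul_zero] at hcount
      have : 0 < a ^ 2 := by positivity
      omega
    have hRpos : (0 : ℝ) < R := h3
    have hkeys : 0 < keys m n := by unfold keys; positivity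
    have h2n : (0 : ℝ) < 2 * (n : ℝ) + 2 := by positivity
    rw [log_natCast hbpos] at h1
    rw [log_natCast hapos]
    have h1' : Real.log b / (2 * (n : ℝ) + 2) < z := by
      have h6 : ((Real.log b / (2 * (n : ℝ) + 2) : ℝ) : EReal) < (z : EReal) := by
        rw [EReal.coe_div]
        exact h1
      exact_mod_cast h6
    have h5 : Real.log b < z * (2 * (n : ℝ) + 2) := (div_lt_iff₀ h2n).1 h1'
    have h6 : 2 * Real.log a ≤ 2 * Real.log (keys m n) + Real.log b := by
      have h7 : ((a : ℝ)) ^ 2 ≤ (keys m n : ℝ) ^ 2 * b := by exact_mod_cast hcount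
      have ha' : (0 : ℝ) < a := by exact_mod_cast hapos
      have hk' : (0 : ℝ) < keys m n := by exact_mod_cast hkeys
      have hb' : (0 : ℝ) < b := by exact_mod_cast hbpos
      have h8 := Real.log_le_log (by positivity) h7
      rw [Real.log_mul (by positivity) hb'.ne', Real.log_pow, Real.log_pow] at h8
      push_cast at h8
      exact h8
    have h7 : Real.log a / R < y := by
      refine lt_of_le_of_lt ?_ h2
      rw [div_le_div_iff_of_pos_right hRpos]
      nlinarith
    have h8 : ((Real.log a / R : ℝ) : EReal) < (y : EReal) := by exact_mod_cast h7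
    rw [EReal.coe_div] at h8
    exact h8.le

/-- The open cone over a ball. -/
def coneBall (r : Fin m → ℝ) (ε : ℝ) : Set (Fin m → ℝ) :=
  {x | ∃ t : ℝ, 0 < t ∧ ∃ y ∈ Metric.ball r ε, x = t • y}

theorem coneBall_isOpenCone (r : Fin m → ℝ) (ε : ℝ) : IsOpenCone (coneBall r ε) := by
  constructor
  · have h : coneBall r ε = ⋃ t : {t : ℝ // 0 < t}, (fun y => t.1 • y) '' Metric.ball r ε := by
      ext x
      simp only [coneBall, Set.mem_ofPred_eq, Set.mem_iUnion, Set.mem_image]
      constructor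
      · rintro ⟨t, ht, y, hy, rfl⟩
        exact ⟨⟨t, ht⟩, y, hy, rfl⟩
      · rintro ⟨⟨t, ht⟩, y, hy, rfl⟩
        exact ⟨t, ht, y, hy, rfl⟩
    rw [h]
    refine isOpen_iUnion fun t => ?_
    exact (isOpenMap_smul₀ t.2.ne') _ Metric.isOpen_ball
  · rintro s hs x ⟨t, ht, y, hy, rfl⟩
    exact ⟨s * t, mul_pos hs ht, y, hy, by rw [smul_smul]⟩

theorem psi_le (hm : 2 ≤ m) (r : Fin m → ℝ) (hr : ∀ i, 0 ≤ r i) (hr1 : ∑ i, r i = 1) :
    psi (⊤ : Subgroup (FreeGroup (Fin m))) r ≤ psi (commutator (FreeGroup (Fin m))) r := by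
  unfold psi
  refine le_iInf fun C => ?_
  obtain ⟨C, hC, hrC⟩ := C
  obtain ⟨δ, hδ, hball⟩ := Metric.isOpen_iff.1 hC.isOpen r hrC
  set ε := δ / 2 with hε
  have hεpos : 0 < ε := by positivity
  obtain ⟨n₀, hn₀⟩ := exists_nat_gt ((1 + m * ε) / ε)
  have hmem : r ∈ coneBall r ε := ⟨1, one_pos, r, Metric.mem_ball_self hεpos, by simp⟩
  refine (iInf_le _ ⟨coneBall r ε, coneBall_isOpenCone r ε, hmem⟩).trans ?_
  refine tau_le hm _ _ n₀ ?_
  rintro w hlen ⟨t, ht, y, hy, hwy⟩ i
  have hlen' : t * ∑ i, |y i| = w.toWord.length := by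
    rw [← sum_wp, hwy, Finset.mul_sum]
    refine Finset.sum_congr rfl fun i _ => ?_
    rw [Pi.smul_apply, smul_eq_mul, abs_mul, abs_of_pos ht]
  have hy1 : ∑ i, |y i| ≤ 1 + m * ε := by
    calc ∑ i, |y i| ≤ ∑ i, (r i + ε) := by
          refine Finset.sum_le_sum fun i _ => ?_
          have h1 : dist (y i) (r i) < ε := (dist_pi_lt_iff hεpos).1 (Metric.mem_ball.1 hy) i
          rw [Real.dist_eq] at h1
          have h2 : |y i| ≤ |y i - r i| + |r i| := by
            have := abs_add_le (y i - r i) (r i)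
            simpa using this
          rw [abs_of_nonneg (hr i)] at h2
          linarith
      _ = 1 + m * ε := by
          rw [Finset.sum_add_distrib, hr1, Finset.sum_const, Finset.card_univ, Fintype.card_fin,
            nsmul_eq_mul]
  have ht1 : 1 / ε < t := by
    have hpos : (0 : ℝ) < 1 + m * ε := by positivity
    have h1 : (n₀ : ℝ) ≤ t * (1 + m * ε) := by
      calc (n₀ : ℝ) ≤ w.toWord.length := by exact_mod_cast hlen
        _ = t * ∑ i, |y i| := hlen'.symm
        _ ≤ t * (1 + m * ε) := mul_le_mul_of_nonneg_left hy1 ht.le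
    have h2 : (1 + m * ε) / ε < t * (1 + m * ε) := lt_of_lt_of_le hn₀ h1
    have h3 : (1 + m * ε) * (1 / ε) < (1 + m * ε) * t := by
      calc (1 + m * ε) * (1 / ε) = (1 + m * ε) / ε := by ring
        _ < t * (1 + m * ε) := h2
        _ = (1 + m * ε) * t := by ring
    exact lt_of_mul_lt_mul_left h3 hpos.le
  have ht2 : 1 / t < ε := by
    rw [div_lt_iff₀ ht]
    rw [div_lt_iff₀ hεpos] at ht1
    linarith
  have hz : y + (1 / t) • (Pi.single i 1 : Fin m → ℝ) ∈ Metric.ball r δ := by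
    rw [Metric.mem_ball, dist_pi_lt_iff hδ]
    intro j
    have h1 : dist (y j) (r j) < ε := (dist_pi_lt_iff hεpos).1 (Metric.mem_ball.1 hy) j
    rw [Real.dist_eq] at h1 ⊢
    have h2 : |(1 / t) * (Pi.single i 1 : Fin m → ℝ) j| < ε := by
      rw [Pi.single_apply]
      by_cases hj : j = i
      · rw [if_pos hj, mul_one, abs_of_pos (by positivity)]
        exact ht2
      · rw [if_neg hj, mul_zero, abs_zero]
        exact hεpos
    calc |(y + (1 / t) • (Pi.single i 1 : Fin m → ℝ)) j - r j|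
        = |(y j - r j) + (1 / t) * (Pi.single i 1 : Fin m → ℝ) j| := by
          rw [Pi.add_apply, Pi.smul_apply, smul_eq_mul]
          congr 1
          ring
      _ ≤ |y j - r j| + |(1 / t) * (Pi.single i 1 : Fin m → ℝ) j| := abs_add_le _ _
      _ < ε + ε := add_lt_add h1 h2
      _ = δ := by rw [hε]; ring
  have hz' := hC.smul_mem (2 * t) (by positivity) _ (hball hz)
  have heq : (2 * t) • (y + (1 / t) • (Pi.single i 1 : Fin m → ℝ)) =
      (2 : ℝ) • wp w + (2 : ℝ) • (Pi.single i 1 : Fin m → ℝ) := by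
    rw [hwy, smul_add, smul_smul, smul_smul]
    congr 2
    field_simp
  rwa [heq] at hz'

theorem psi_mono (H : Subgroup (FreeGroup (Fin m))) (r : Fin m → ℝ) :
    psi H r ≤ psi (⊤ : Subgroup (FreeGroup (Fin m))) r := by
  unfold psi
  refine iInf_mono fun C => ?_
  unfold tau
  refine limsup_le_limsup ?_
  filter_upwards [eventually_gt_atTop 0] with R hR
  refine EReal.div_le_div_right_of_nonneg (by exact_mod_cast hR.le) ?_
  refine ENNReal.log_le_log ?_
  rw [ENat.toENNReal_le]
  refine Set.encard_le_encard fun w hw => ?_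
  exact ⟨trivial, hw.2⟩

theorem psi_commutator (hm : 2 ≤ m) (r : Fin m → ℝ) (hr : ∀ i, 0 ≤ r i) (hr1 : ∑ i, r i = 1) :
    psi (commutator (FreeGroup (Fin m))) r = psi (⊤ : Subgroup (FreeGroup (Fin m))) r :=
  le_antisymm (psi_mono _ r) (psi_le hm r hr hr1)

end Q43.CG
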