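import Pool.Agent.Q43.CG.Defs

/-! Combination of two words with the same letters into an element of the commutator
subgroup. -/

open FreeGroup

namespace Q43.CG

variable {m : ℕ}

/-- Replace every letter by its inverse. -/
def flip (L : List (Fin m × Bool)) : List (Fin m × Bool) := L.map (fun x => (x.1, !x.2))

/-- The word `L c flip(L') c⁻¹`. -/
def comb (c : Fin m × Bool) (L L' : List (Fin m × Bool)) : List (Fin m × Bool) :=
  L ++ (c :: (flip L' ++ [(c.1, !c.2)]))

theorem flip_length (L : List (Fin m × Bool)) : (flip L).length = L.length := by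
  simp [flip]

theorem flip_injective : Function.Injective (flip (m := m)) := by
  intro L L' h
  unfold flip at h
  refine List.map_injective_iff.2 ?_ h
  rintro ⟨a, b⟩ ⟨a', b'⟩ h
  simpa using h

theorem comb_inj (c : Fin m × Bool) {L₁ L₁' L₂ L₂' : List (Fin m × Bool)}
    (hlen : L₁.length = L₂.length) (h : comb c L₁ L₁' = comb c L₂ L₂') :
    L₁ = L₂ ∧ L₁' = L₂' := by
  unfold comb at h
  obtain ⟨h1, h2⟩ := List.append_inj h hlen
  refine ⟨h1, ?_⟩
  have h3 := (List.cons.inj h2).2
  have h4 : flip L₁' = flip L₂' := List.append_cancel_right h3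
  exact flip_injective h4

theorem isReduced_flip {L : List (Fin m × Bool)} (h : IsReduced L) : IsReduced (flip L) := by
  unfold FreeGroup.IsReduced flip at *
  rw [List.isChain_map]
  refine List.IsChain.imp (fun a b hab h1 => ?_) h
  simp only at h1 ⊢
  rw [hab h1]

theorem isReduced_comb {c : Fin m × Bool} {L L' : List (Fin m × Bool)} (h : IsReduced L)
    (h' : IsReduced L') (h1 : ∀ l ∈ L.getLast?, c ≠ (l.1, !l.2)) (h2 : ∀ f ∈ L'.head?, c ≠ f)
    (h3 : ∀ l ∈ L'.getLast?, c ≠ (l.1, !l.2)) (hne : L' ≠ []) :
    IsReduced (comb c L L') := by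
  have key : ∀ a b : Fin m × Bool, b ≠ (a.1, !a.2) → (a.1 = b.1 → a.2 = b.2) := by
    rintro ⟨a1, a2⟩ ⟨b1, b2⟩ hab h
    simp only at h ⊢
    subst h
    by_contra hne
    apply hab
    simp only [Prod.mk.injEq, true_and]
    cases a2 <;> cases b2 <;> simp_all
  have hf := isReduced_flip h'
  unfold comb
  unfold FreeGroup.IsReduced at *
  rw [List.isChain_append]
  refine ⟨h, ?_, ?_⟩
  · rw [List.isChain_cons]
    refine ⟨?_, ?_⟩
    · intro y hy
      have hne' : flip L' ≠ [] := by
        intro h0
        apply hne
        unfold flip at h0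
        exact List.map_eq_nil_iff.1 h0
      rw [List.head?_append_of_ne_nil _ hne'] at hy
      unfold flip at hy
      rw [List.head?_map, Option.mem_map] at hy
      obtain ⟨f, hf1, rfl⟩ := hy
      have := h2 f hf1
      intro hcf
      by_contra hcon
      apply this
      simp only at hcf hcon
      ext
      · rw [hcf]
      · revert hcon
        cases c.2 <;> cases f.2 <;> simp
    · rw [List.isChain_append]
      refine ⟨hf, List.isChain_singleton _, ?_⟩
      intro x hx y hy
      simp only [List.head?_cons, Option.mem_def, Option.some.injEq] at hy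
      subst hy
      unfold flip at hx
      rw [List.getLast?_map, Option.mem_map] at hx
      obtain ⟨l, hl, rfl⟩ := hx
      have := key l c (h3 l hl)
      intro h5
      simp only at h5 ⊢
      rw [this h5]
  · intro x hx y hy
    simp only [List.head?_cons, Option.mem_def, Option.some.injEq] at hy
    subst hy
    exact key x c (h1 x hx)

theorem mk_comb_mem {c : Fin m × Bool} {L L' : List (Fin m × Bool)} (h : L.Perm L') :
    (FreeGroup.mk (comb c L L') : FreeGroup (Fin m)) ∈ commutator (FreeGroup (Fin m)) := by
  have h1 : ∀ L : List (Fin m × Bool), (Abelianization.of (FreeGroup.mk L) :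
      Abelianization (FreeGroup (Fin m))) =
      (L.map fun x => cond x.2 (Abelianization.of (FreeGroup.of x.1))
        (Abelianization.of (FreeGroup.of x.1))⁻¹).prod := by
    intro L
    have h2 : (Abelianization.of : FreeGroup (Fin m) →* Abelianization (FreeGroup (Fin m))) =
        FreeGroup.lift (fun i => Abelianization.of (FreeGroup.of i)) := by
      ext i
      simp
    conv_lhs => rw [h2]
    rw [FreeGroup.lift_mk]
  have hflip : ∀ L : List (Fin m × Bool),
      ((flip L).map fun x => cond x.2 (Abelianization.of (FreeGroup.of x.1) :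
        Abelianization (FreeGroup (Fin m))) (Abelianization.of (FreeGroup.of x.1))⁻¹).prod =
      ((L.map fun x => cond x.2 (Abelianization.of (FreeGroup.of x.1) :
        Abelianization (FreeGroup (Fin m))) (Abelianization.of (FreeGroup.of x.1))⁻¹).prod)⁻¹ := by
    intro L
    induction L with
    | nil => simp [flip]
    | cons x L ih =>
      unfold flip at ih ⊢
      rw [List.map_cons, List.map_cons, List.prod_cons, ih, List.map_cons, List.prod_cons,
        mul_inv]
      congr 1
      rcases x with ⟨i, b⟩
      cases b <;> simp
  have h3 : (Abelianization.of (FreeGroup.mk (comb c L L')) :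
      Abelianization (FreeGroup (Fin m))) = 1 := by
    rw [h1]
    unfold comb
    rw [List.map_append, List.prod_append, List.map_cons, List.prod_cons, List.map_append,
      List.prod_append, hflip, (h.map _).prod_eq]
    simp only [List.map_cons, List.map_nil, List.prod_cons, List.prod_nil, mul_one]
    rcases c with ⟨i, b⟩
    cases b <;> simp
  rwa [← MonoidHom.mem_ker, Abelianization.ker_of] at h3

theorem exists_letter (hm : 2 ≤ m) (x y : Fin m × Bool) : ∃ c : Fin m × Bool, c ≠ x ∧ c ≠ y := by
  classical
  by_contra hcon
  push Not at hcon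
  have : (Finset.univ : Finset (Fin m × Bool)) ⊆ {x, y} := by
    intro c _
    rw [Finset.mem_insert, Finset.mem_singleton]
    by_cases h : c = x
    · exact Or.inl h
    · exact Or.inr (hcon c h)
  have h2 := Finset.card_le_card this
  have h3 : (Finset.univ : Finset (Fin m × Bool)).card = m * 2 := by simp
  have h4 : ({x, y} : Finset (Fin m × Bool)).card ≤ 2 := Finset.card_le_two
  omega

end Q43.CG
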